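import Mathlib
import Pool.Agent.Run7.h524.MG.ConQ

set_option autoImplicit false

/-!
# The number of prime constellations along almost all lists of primes has a Poisson law

Take a list of about `λ log ^ k N` primes `p ≤ x`, and count the primes `p` of the list for which all of
`p + a_1, ..., p + a_k` (more generally `a_i + f_i(p)`) are primes. The prime tuples conjecture suggests that this number
has a Poisson law with the singular series of `(a_1, ..., a_k)` in its parameter when `(a_1, ..., a_k)` varies. For `k = 2`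
and `f_1 = f_2 = X` this counts the prime triples `(p, p + a_1, p + a_2)`. This is proved here for all lists outside a
proportion `exp (- δ log ^ k N)`, for `(a_1, ..., a_k)` in any set of positive density, and for quite small primes `p`
(`p ≥ N ^ (1 / (3 deg f)) log ^ C N`).

Main ingredients: the Bateman-Horn formula at prime arguments for almost all constant terms
(`Pool.Agent.Run7.h18.MK.sysp_fin`, project MK of this run), the prime number theorem (`Pool.Agent.Cov.PNT`), the inequality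
of bounded differences.
-/

open Polynomial Finset

namespace Pool.Agent.Results.MP_dddec0_nt.PoissonConstellations

/-- The number of the residues `r` modulo `q` for which `q` divides `r` times the product of the `a_i + f_i(r)`. -/
noncomputable def rootCount {k : ℕ} (f : Fin k → ℤ[X]) (a : Fin k → ℕ) (q : ℕ) : ℕ :=
  ((range q).filter (fun r : ℕ => (q : ℤ) ∣ (r : ℤ) * ∏ i, ((a i : ℤ) + (f i).eval (r : ℤ)))).card

/-- The singular series, truncated at `z`: the product of `(1 - rootCount / q) / (1 - 1 / q) ^ (k + 1)` over the primes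
`q ≤ z`. -/
noncomputable def density {k : ℕ} (f : Fin k → ℤ[X]) (a : Fin k → ℕ) (z : ℕ) : ℝ :=
  ∏ q ∈ (Icc 1 z).filter Nat.Prime, (1 - (rootCount f a q : ℝ) / q) / (1 - 1 / (q : ℝ)) ^ (k + 1)

/-- The primes up to `x`. -/
def primesTo (x : ℕ) : Finset ℕ := (Icc 1 x).filter Nat.Prime

open Classical in
/-- The number of the primes `p` in the list `P` for which all the `a_i + f_i(p)` are primes. -/
noncomputable def hits {k m x : ℕ} (f : Fin k → ℤ[X]) (a : Fin k → ℕ) (P : Fin m → {p // p ∈ primesTo x}) : ℕ :=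
  (univ.filter fun l => ∀ i, ((a i : ℤ) + (f i).eval ((P l : ℕ) : ℤ)).toNat.Prime).card

/-- The Poisson probabilities. -/
noncomputable def poisson (lam : ℝ) (j : ℕ) : ℝ := Real.exp (-lam) * lam ^ j / j.factorial

open Classical in
/-- Let `k ≥ 1`, let `f_1, ..., f_k` be nonconstant integer polynomials, let `B ≥ 1` and `Λ, ε > 0`. There are `C`, `B₀`, `M₀`
and `δ > 0` such that for every `E` the following holds for all large `N`, with `L = log N`, all `z` between `L ^ B₀` and
`L ^ E`, all `x` with `N ^ (1 / 3) L ^ C ≤ x ^ (deg f_i) ≤ N / L ^ C` for all `i`, all sets `J` of at least `N ^ k / B` vectors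
`a = (a_1, ..., a_k)` of integers in `[1, N]` and all `m` with `M₀ ≤ m ≤ Λ L ^ k`. For all lists `P` of `m` primes
`p ≤ x` (repetitions allowed), with at most `exp (- δ L ^ k) π(x) ^ m` exceptions, and for all `j ≥ 0` simultaneously:
the number of the `a ∈ J` for which exactly `j` of the primes `p` of the list make all `a_i + f_i(p)` primes differs by at
most `ε |J|` from the sum of the Poisson probabilities `exp (- λ_a) λ_a ^ j / j!` over the `a ∈ J`, where
`λ_a = m density(a) / (log a_1 ... log a_k)`. -/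
theorem result (k : ℕ) (hk : 1 ≤ k) (f : Fin k → ℤ[X]) (hf : ∀ i, 1 ≤ (f i).natDegree) (B : ℕ) (hB : 1 ≤ B) (Λ ε : ℝ)
    (hΛ : 0 < Λ) (hε : 0 < ε) : ∃ (C B₀ M₀ : ℕ) (δ : ℝ), 0 < δ ∧ ∀ E : ℕ, ∃ N₀ : ℕ, ∀ N : ℕ, N₀ ≤ N → ∀ z : ℕ,
    Real.log N ^ B₀ ≤ z → (z : ℝ) ≤ Real.log N ^ E → ∀ x : ℕ,
    (∀ i, (N : ℝ) ^ (1 / 3 : ℝ) * Real.log N ^ C ≤ (x : ℝ) ^ (f i).natDegree ∧
      (x : ℝ) ^ (f i).natDegree * Real.log N ^ C ≤ N) →
    ∀ J : Finset (Fin k → ℕ), (∀ a ∈ J, ∀ i, 1 ≤ a i ∧ a i ≤ N) → N ^ k ≤ B * J.card →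
    ∀ m : ℕ, M₀ ≤ m → (m : ℝ) ≤ Λ * Real.log N ^ k →
    (((univ : Finset (Fin m → {p // p ∈ primesTo x})).filter fun P => ¬ ∀ j : ℕ,
      |((J.filter fun a => hits f a P = j).card : ℝ) -
        ∑ a ∈ J, poisson (m * (density f a z / ∏ i, Real.log (a i))) j| ≤ ε * J.card).card : ℝ) ≤
      Real.exp (-(δ * Real.log N ^ k)) * ((primesTo x).card : ℝ) ^ m := by
  obtain ⟨C, B₀, M₀, δ, hδ, h⟩ := Pool.Agent.Run7.h524.MG.con_pois k hk f hf B hB Λ hΛ ε hε
  refine ⟨C, B₀, M₀, δ, hδ, fun E => ?_⟩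
  obtain ⟨N₀, h⟩ := h E
  refine ⟨N₀, fun N hN z hz1 hz2 x hx J hJ hJB m hm1 hm2 => ?_⟩
  have h1 := h N hN z hz1 hz2 x hx J (fun a ha => by
    rw [Fintype.mem_piFinset]
    exact fun i => mem_Icc.2 (hJ a ha i)) hJB m hm1 hm2
  have hden : ∀ a : Fin k → ℕ, density f a z =
      Pool.Agent.Run7.h18.MK.dens (X * Pool.Agent.Run7.h18.MK.gP f a) (k + 1) z := by
    intro a
    have hroot : ∀ p : ℕ, rootCount f a p =
        Pool.Agent.H373R2.T7.nuB (Pool.Agent.Run7.h18.MK.Rt (X * Pool.Agent.Run7.h18.MK.gP f a) 0) p := by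
      intro p
      unfold rootCount Pool.Agent.H373R2.T7.nuB Pool.Agent.Run7.h18.MK.Rt
      simp only [eval_mul, eval_X, Pool.Agent.Run7.h18.MK.gP_eval, zero_add]
    unfold density Pool.Agent.Run7.h18.MK.dens Pool.Agent.H373R2.T7.Vz Pool.Agent.H373R2.T7.pz
    rw [prod_div_distrib, prod_pow, div_eq_inv_mul, inv_pow]
    congr 1
    exact prod_congr rfl fun p _ => by rw [hroot]
  unfold poisson hits primesTo
  unfold Pool.Agent.Run7.h524.MG.PX at h1
  simp only [hden]
  unfold Pool.Agent.Run7.h524.MG.pw Pool.Agent.Run7.h524.MG.AllP at h1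
  convert h1

end Pool.Agent.Results.MP_dddec0_nt.PoissonConstellations
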