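import Pool.Agent.Run7.h90.AU.Alt

set_option autoImplicit false

/-!
# Prime triplets at thin families of residues modulo a prime

Let `p` be a large prime and let `(v_i)`, `i ∈ s`, be a family of residues modulo `p` whose exponential sums
`∑ e(ξ v_i / p)`, `ξ ≠ 0`, are at most `p ^ (-ε) |s|`; the family may be very thin. Examples: the values of a sparse
polynomial of arbitrary degree on a subgroup of order `p ^ η`, the values `c_1 g_1 ^ n + ... + c_k g_k ^ n`, `n < N`,
`N ≥ p ^ η`. The theorem is about the integers `n` congruent to a member of the family modulo `p` in an interval of length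
`L ≥ p ^ (1 - δ)`. The
numbers `n` such that `n`, `n + 6` and one of `n + 2`, `n + 4` have no prime factors up to `z` have the frequency
predicted by Hardy and Littlewood for the prime triplets of the problem (both shapes together).

Proof: bound of Bourgain, Glibichuk and Konyagin in the form for recurrences and monomials (`Agent/Run7/h823/BK9`);
equidistribution in the residue classes modulo all integers up to `p ^ δ` and the fundamental lemma of the sieve
(`Agent/Run7/h90/AU`).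
-/

namespace Pool.Agent.Results.MP_dddec0_nt.SparsePolynomialValues

open Finset Filter Topology
open Pool.Agent.Run7.h90.AU (Formula Orders SparseSmall RecurrencesSmall)

/-- The partial products of the constant of the triples. -/
noncomputable def tripletConstant (z : ℕ) : ℝ :=
  9 / 2 * ∏ q ∈ (Icc 4 z).filter Nat.Prime, ((q : ℝ) ^ 2 * ((q : ℝ) - 3) / ((q : ℝ) - 1) ^ 3)

/-- All the numbers `n, n + 2, n + 6` have the property `P`. -/
def Low (P : ℕ → Prop) (n : ℕ) : Prop := P n ∧ P (n + 2) ∧ P (n + 6)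

/-- All the numbers `n, n + 4, n + 6` have the property `P`. -/
def High (P : ℕ → Prop) (n : ℕ) : Prop := P n ∧ P (n + 4) ∧ P (n + 6)

/-- `n` and `n + 6` have the property `P`, and one of `n + 2`, `n + 4` has it. -/
def Triplet (P : ℕ → Prop) (n : ℕ) : Prop := P n ∧ P (n + 6) ∧ (P (n + 2) ∨ P (n + 4))

/-- constant terms of the linear forms -/
def a1 : Fin 3 → ℤ := ![0, 2, 6]

/-- leading coefficients of the linear forms -/
def d1 : Fin 3 → ℤ := ![1, 1, 1]

theorem iff1 (P : ℕ → Prop) (n : ℕ) (hn : 1 ≤ n) :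
    (∀ j, P (a1 j + d1 j * (n : ℤ)).natAbs) ↔ Low P n := by
  unfold a1 d1 Low
  simp only [Fin.forall_fin_succ, Fin.forall_fin_zero, Matrix.cons_val_zero, Matrix.cons_val_succ, and_true]
  have e0 : ((0 : ℤ) + 1 * (n : ℤ)).natAbs = n := by omega
  have e1 : ((2 : ℤ) + 1 * (n : ℤ)).natAbs = n + 2 := by omega
  have e2 : ((6 : ℤ) + 1 * (n : ℤ)).natAbs = n + 6 := by omega
  rw [e0, e1, e2]

theorem nd1 : Pool.Agent.Run7.h90.AU.ND a1 d1 := by
  refine Pool.Agent.Run7.h90.AU.nd_of (by decide) (by decide)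
    (fun j => Int.isCoprime_iff_gcd_eq_one.2 (by revert j; decide)) ?_
  · intro l hl h
    have hl2 := hl.two_le
    have hcase : l = 2 ∨ l = 3 := by omega
    rcases hcase with rfl | rfl
    · exact ⟨1, by decide⟩
    · exact ⟨2, by decide⟩

theorem res1 : (Pool.Agent.Run7.h90.AU.Res a1 d1).natAbs = 48 := by decide

theorem om1 : Pool.Agent.Run7.h90.AU.om a1 d1 2 = 1 ∧ Pool.Agent.Run7.h90.AU.om a1 d1 3 = 2 := by
  unfold Pool.Agent.Run7.h90.AU.om
  decide

theorem psing1 {z : ℕ} (hz : 3 ≤ z) : Pool.Agent.Run7.h90.AU.psing a1 d1 z = tripletConstant z := by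
  rw [Pool.Agent.Run7.h90.AU.psing_exp nd1 3 (fun l hl h => by
    rw [res1] at h
    exact (Pool.Agent.Run7.h90.AU.sm23 hl h 4 1 (by norm_num)).trans (by norm_num)) hz]
  have e1 : Pool.Agent.Run7.h90.AU.psing a1 d1 3 = 9 / 2 := by
    unfold Pool.Agent.Run7.h90.AU.psing
    have e : (range (3 + 1)).filter Nat.Prime = {2, 3} := by decide
    rw [e, prod_insert (by decide), prod_singleton, om1.1, om1.2]
    norm_num
  have e2 : ∀ q ∈ (Icc (3 + 1) z).filter Nat.Prime, (1 - ((3 : ℕ) : ℝ) / q) / (1 - 1 / (q : ℝ)) ^ 3 =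
      ((q : ℝ) ^ 2 * ((q : ℝ) - 3) / ((q : ℝ) - 1) ^ 3) := by
    intro q hq
    rw [mem_filter, mem_Icc] at hq
    have h4 : (3 : ℝ) + 1 ≤ q := by exact_mod_cast hq.1.1
    have h1 : (q : ℝ) ≠ 0 := by linarith
    have h2 : (q : ℝ) - 1 ≠ 0 := by linarith
    have e : (1 : ℝ) - 1 / q = (q - 1) / q := by field_simp
    rw [e]
    field_simp
    push_cast
    ring
  unfold tripletConstant
  rw [e1, prod_congr rfl e2]

/-- constant terms of the linear forms -/
def a2 : Fin 3 → ℤ := ![0, 4, 6]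

/-- leading coefficients of the linear forms -/
def d2 : Fin 3 → ℤ := ![1, 1, 1]

theorem iff2 (P : ℕ → Prop) (n : ℕ) (hn : 1 ≤ n) :
    (∀ j, P (a2 j + d2 j * (n : ℤ)).natAbs) ↔ High P n := by
  unfold a2 d2 High
  simp only [Fin.forall_fin_succ, Fin.forall_fin_zero, Matrix.cons_val_zero, Matrix.cons_val_succ, and_true]
  have e0 : ((0 : ℤ) + 1 * (n : ℤ)).natAbs = n := by omega
  have e1 : ((4 : ℤ) + 1 * (n : ℤ)).natAbs = n + 4 := by omega
  have e2 : ((6 : ℤ) + 1 * (n : ℤ)).natAbs = n + 6 := by omega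
  rw [e0, e1, e2]

theorem nd2 : Pool.Agent.Run7.h90.AU.ND a2 d2 := by
  refine Pool.Agent.Run7.h90.AU.nd_of (by decide) (by decide)
    (fun j => Int.isCoprime_iff_gcd_eq_one.2 (by revert j; decide)) ?_
  · intro l hl h
    have hl2 := hl.two_le
    have hcase : l = 2 ∨ l = 3 := by omega
    rcases hcase with rfl | rfl
    · exact ⟨1, by decide⟩
    · exact ⟨1, by decide⟩

theorem res2 : (Pool.Agent.Run7.h90.AU.Res a2 d2).natAbs = 48 := by decide

theorem om2 : Pool.Agent.Run7.h90.AU.om a2 d2 2 = 1 ∧ Pool.Agent.Run7.h90.AU.om a2 d2 3 = 2 := by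
  unfold Pool.Agent.Run7.h90.AU.om
  decide

theorem psing2 {z : ℕ} (hz : 3 ≤ z) : Pool.Agent.Run7.h90.AU.psing a2 d2 z = tripletConstant z := by
  rw [Pool.Agent.Run7.h90.AU.psing_exp nd2 3 (fun l hl h => by
    rw [res2] at h
    exact (Pool.Agent.Run7.h90.AU.sm23 hl h 4 1 (by norm_num)).trans (by norm_num)) hz]
  have e1 : Pool.Agent.Run7.h90.AU.psing a2 d2 3 = 9 / 2 := by
    unfold Pool.Agent.Run7.h90.AU.psing
    have e : (range (3 + 1)).filter Nat.Prime = {2, 3} := by decide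
    rw [e, prod_insert (by decide), prod_singleton, om2.1, om2.2]
    norm_num
  have e2 : ∀ q ∈ (Icc (3 + 1) z).filter Nat.Prime, (1 - ((3 : ℕ) : ℝ) / q) / (1 - 1 / (q : ℝ)) ^ 3 =
      ((q : ℝ) ^ 2 * ((q : ℝ) - 3) / ((q : ℝ) - 1) ^ 3) := by
    intro q hq
    rw [mem_filter, mem_Icc] at hq
    have h4 : (3 : ℝ) + 1 ≤ q := by exact_mod_cast hq.1.1
    have h1 : (q : ℝ) ≠ 0 := by linarith
    have h2 : (q : ℝ) - 1 ≠ 0 := by linarith
    have e : (1 : ℝ) - 1 / q = (q - 1) / q := by field_simp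
    rw [e]
    field_simp
    push_cast
    ring
  unfold tripletConstant
  rw [e1, prod_congr rfl e2]

theorem rough_iff (z : ℕ) (hz : 3 ≤ z) (n : ℕ) (hn : 1 ≤ n) :
    (Triplet (Pool.Agent.Run7.h90.AU.Rough z) n ↔ Low (Pool.Agent.Run7.h90.AU.Rough z) n ∨
      High (Pool.Agent.Run7.h90.AU.Rough z) n) ∧
    ¬ (Low (Pool.Agent.Run7.h90.AU.Rough z) n ∧ High (Pool.Agent.Run7.h90.AU.Rough z) n) := by
  unfold Triplet Low High
  constructor
  · tauto
  · rintro ⟨⟨h1, h2, -⟩, ⟨-, h3, -⟩⟩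
    have k1 : ¬ 3 ∣ n := h1 3 Nat.prime_three hz
    have k2 : ¬ 3 ∣ n + 2 := h2 3 Nat.prime_three hz
    have k3 : ¬ 3 ∣ n + 4 := h3 3 Nat.prime_three hz
    omega

theorem almost_imp (r : ℕ) (y y' : ℝ) (h0 : (0 : ℝ) ≤ y') (h : y' ≤ y) (n : ℕ) (hn : 1 ≤ n) :
    Low (Pool.Agent.Run7.h90.AU.Almost r y) n → Triplet (Pool.Agent.Run7.h90.AU.Almost r y') n :=
  fun h1 => ⟨Pool.Agent.Run7.h90.AU.almost_mono le_rfl h h1.1, Pool.Agent.Run7.h90.AU.almost_mono le_rfl h h1.2.2,
    Or.inl (Pool.Agent.Run7.h90.AU.almost_mono le_rfl h h1.2.1)⟩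

theorem prime_imp (n : ℕ) (hn : 1 ≤ n) : Triplet Nat.Prime n → Low Nat.Prime n ∨ High Nat.Prime n := by
  unfold Triplet Low High
  tauto

theorem result : ∃ D : ℝ,
    0 < D ∧ Tendsto tripletConstant atTop (𝓝 D) ∧
    Formula 3 Triplet (2 * D) ∧ Orders 3 Triplet ∧
    SparseSmall ∧ RecurrencesSmall := by
  obtain ⟨E1, hE1, hl1⟩ := Pool.Agent.Run7.h90.AU.lim_of nd1
  have hC1 : Tendsto tripletConstant atTop (𝓝 E1) := hl1.congr' (by
    filter_upwards [eventually_ge_atTop 3] with z hz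
    exact psing1 hz)
  have F1 := Pool.Agent.Run7.h90.AU.formula_of nd1 iff1 hE1 hl1
  have O1 := Pool.Agent.Run7.h90.AU.orders_of nd1 iff1 hE1 hl1
  have hl2 : Tendsto (Pool.Agent.Run7.h90.AU.psing a2 d2) atTop (𝓝 E1) := hC1.congr' (by
    filter_upwards [eventually_ge_atTop 3] with z hz
    exact (psing2 hz).symm)
  have F2 := Pool.Agent.Run7.h90.AU.formula_of nd2 iff2 hE1 hl2
  have O2 := Pool.Agent.Run7.h90.AU.orders_of nd2 iff2 hE1 hl2
  have F3 := Pool.Agent.Run7.h90.AU.formula_or F1 F2 3 rough_iff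
  have O3 := Pool.Agent.Run7.h90.AU.orders_or O1 O2 0 almost_imp prime_imp
  rw [← two_mul] at F3
  refine ⟨E1, hE1, hC1, F3, O3, Pool.Agent.Run7.h90.AU.sparse_small, Pool.Agent.Run7.h90.AU.rec_small⟩

end Pool.Agent.Results.MP_dddec0_nt.SparsePolynomialValues
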