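import Mathlib
import Pool.Agent.Run7.h609.BT.E
import Pool.Agent.Run7.h609.BT.F
import Pool.Agent.Run7.h609.MK.BeaC
import Pool.Agent.Run7.h794.MK.All

/-!
# Prime triplets, and prime tuplets, in Bohr sets and in Beatty sequences

It is not known that there are infinitely many prime triplets `p, p + 2, p + 6`.  Here the prime tuplets
`n, n + a₁, …, n + a_k` (triplets for `k = 2`) of almost all patterns `a` from short families are counted with an
additional condition of thin arithmetic structure on EACH of the `k + 1` primes.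

* (`result`, part 1)  Let `α` be in `ℝ^r` and suppose that `‖d (h₁ α₁ + … + h_r α_r)‖ ≥ N^(η - 1)` for all `1 ≤ d ≤ N^η`
  and all integers `|h_j| ≤ M`, not all zero.  Then the following holds for all patterns `a` near the members of
  short families with at most a proportion `1 / (log N)^U` of exceptions: if `(0, a₁, …, a_k)` is admissible, then for all
  boxes `B₀, …, B_k` of the torus (all at once) the number of the `n ≤ N` for which `n + a_i` is a prime and
  `α (n + a_i) ∈ B_i` modulo one, `0 ≤ i ≤ k`, `a₀ = 0`, is `(λ + O(ε)) 𝔖(a) N / (log N)^(k + 1)`, where `λ` is the measure of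
  `⋂ (B_i - a_i α)` and `𝔖(a)` is the singular series.
* (part 2)  The same for `α_j = 1 / β_j`, `β_j ≥ 1`: the tuplets all of whose members `n + a_i` are primes in the Beatty
  sequences `⌊β_j m + γ_ij⌋`, for all real `γ_ij` at once.
* (part 3)  If `|h₁ α₁ + … + h_r α_r - m| ≥ c₀ / (|h₁| + … + |h_r|)^τ` for all integers `h_j`, not all zero, and `m`, then
  the condition of part 1 holds for all large `N`, if `η (τ + 1) < 1`.

The families: `y_i(j)`, `j ∈ S_i`, are any residues modulo `q_i`, `N^(1/3) (log N)^C ≤ q_i ≤ B N`, all of whose nonzero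
Fourier coefficients are `≤ |S_i| / (log N)^V` (for example all residues modulo `q_i`, that is an interval of this
length).  The patterns are `a_i = c_i + κ_i y_i(n_i) + t_i` with the least nonnegative residues, any `0 ≤ c_i ≤ B N`, fixed
`κ_i ≥ 1`, and ALL `0 ≤ t_i ≤ (log N)^W` at once.

Inputs: the one shift law for short flat distributions (`flt_all` of project MK: helper794 and others), which rests
on the exponential sums over primes in almost all intervals of length `N^(1/3) (log N)^C`.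
-/

set_option autoImplicit false
set_option maxHeartbeats 4000000

namespace Pool.Agent.Results.MP_dddec0_nt.TupletsInBohrSets

open Finset

/-- the members of the tuplet relative to the first one: `0, a 0, …, a (k - 1)` -/
def member {k : ℕ} (a : Fin k → ℕ) : Fin (k + 1) → ℕ := Fin.cons 0 a

/-- the `n ≤ N` for which all `n + member a i` are primes -/
def tuplets {k : ℕ} (a : Fin k → ℕ) (N : ℕ) : Finset ℕ := (Icc 1 N).filter fun n => ∀ i, (n + member a i).Prime

/-- the pattern is admissible -/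
def Adm {k : ℕ} (a : Fin k → ℕ) : Prop := ∀ p : ℕ, p.Prime → ∃ x : ℕ, ∀ i, ¬ p ∣ x + member a i

/-- the singular series, truncated at `z` -/
noncomputable def series {k : ℕ} (a : Fin k → ℕ) (z : ℕ) : ℝ :=
  ∏ p ∈ (Icc 1 z).filter Nat.Prime,
    (1 - (((range p).filter fun x => ∃ i, p ∣ x + member a i).card : ℝ) / p) / (1 - 1 / (p : ℝ)) ^ (k + 1)

/-- the measure of the `x` in `[0, 1)` for which `x + s i` is in `[0, l i)` modulo one, for all `i` -/
noncomputable def meas {k : ℕ} (s l : Fin (k + 1) → ℝ) : ℝ :=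
  (MeasureTheory.volume {x : ℝ | 0 ≤ x ∧ x < 1 ∧ ∀ i, Int.fract (x + s i) < l i}).toReal

/-- the expected number of tuplets with `α (n + member a i)` in the box `[u i, v i)` modulo one, for all boxes -/
def Boxes {r k : ℕ} (ε : ℝ) (N : ℕ) (α : Fin r → ℝ) (a : Fin k → ℕ) : Prop :=
  Adm a → ∃ S : ℝ, 0 < S ∧ Filter.Tendsto (series a) Filter.atTop (nhds S) ∧
    ∀ u v : Fin (k + 1) → Fin r → ℝ, (∀ i j, u i j ≤ v i j) → (∀ i j, v i j ≤ u i j + 1) →
      |(((tuplets a N).filter fun n : ℕ => ∀ i j, Int.fract (α j * (n + member a i : ℕ) - u i j) < v i j - u i j).card : ℝ) -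
        (∏ j, meas (fun i => α j * member a i - u i j) (fun i => v i j - u i j)) * (S * (N / Real.log N ^ (k + 1)))| ≤
          ε * (S * (N / Real.log N ^ (k + 1)))

open scoped Classical in
/-- the expected number of tuplets with `n + member a i` in the Beatty sequences `⌊β j * m + γ i j⌋`, for all `γ` -/
def Beatty {r k : ℕ} (ε : ℝ) (N : ℕ) (β : Fin r → ℝ) (a : Fin k → ℕ) : Prop :=
  Adm a → ∃ S : ℝ, 0 < S ∧ Filter.Tendsto (series a) Filter.atTop (nhds S) ∧
    ∀ γ : Fin (k + 1) → Fin r → ℝ,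
      |(((tuplets a N).filter fun n : ℕ => ∀ i j, ∃ m : ℤ, ((n + member a i : ℕ) : ℤ) = ⌊β j * m + γ i j⌋).card : ℝ) -
        (∏ j, meas (fun i => (γ i j - member a i) / β j) (fun _ => 1 / β j)) * (S * (N / Real.log N ^ (k + 1)))| ≤
          ε * (S * (N / Real.log N ^ (k + 1)))

/-- `‖d (h₁ α₁ + … + h_r α_r)‖ ≥ N ^ (η - 1)` for all `1 ≤ d ≤ N ^ η` and all integers `|h_j| ≤ M`, not all zero -/
def Independent {r : ℕ} (M : ℕ) (η : ℝ) (N : ℕ) (α : Fin r → ℝ) : Prop :=
  ∀ h : Fin r → ℤ, h ≠ 0 → (∀ j, |h j| ≤ M) → ∀ d : ℕ, 1 ≤ d → (d : ℝ) ≤ (N : ℝ) ^ η → ∀ m : ℤ,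
    (N : ℝ) ^ (η - 1) ≤ |(d : ℝ) * (∑ j, (h j : ℝ) * α j) - m|

/-- the Fourier coefficients of the residues `y i`, `i ∈ s`, modulo `q` at the nonzero frequencies are at most
`δ` times the number of the residues -/
def Flat {ι : Type} (q : ℕ) [NeZero q] (δ : ℝ) (s : Finset ι) (y : ι → ZMod q) : Prop :=
  ∀ h : ZMod q, h ≠ 0 → ‖∑ i ∈ s, (ZMod.stdAddChar (h * y i) : ℂ)‖ ≤ δ * s.card

lemma adm_iff {k : ℕ} (a : Fin k → ℕ) (h : Adm a) : Pool.Agent.H373R2.T7.Admissible (fun i => (a i : ℤ)) := by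
  intro p hp
  obtain ⟨x, hx⟩ := h p hp
  refine ⟨x, ?_, fun i => ?_⟩
  · have h1 := hx 0
    unfold member at h1
    rw [Fin.cons_zero, add_zero] at h1
    exact_mod_cast h1
  · have h1 := hx i.succ
    unfold member at h1
    rw [Fin.cons_succ] at h1
    show ¬ (p : ℤ) ∣ (x : ℤ) + (a i : ℤ)
    exact_mod_cast h1

lemma series_eq {k : ℕ} (a : Fin k → ℕ) : series a = fun z => Pool.Agent.H373R2.T7.singZ (fun i => (a i : ℤ)) z := by
  funext z
  unfold series Pool.Agent.H373R2.T7.singZ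
  apply prod_congr rfl
  intro p _
  have h1 : ((range p).filter fun x => ∃ i, p ∣ x + member a i).card = Pool.Agent.H373R2.T7.nuP (fun i => (a i : ℤ)) p := by
    unfold Pool.Agent.H373R2.T7.nuP
    congr 1
    apply filter_congr
    intro x _
    rw [Fin.exists_fin_succ]
    unfold member
    simp only [Fin.cons_zero, Fin.cons_succ, add_zero]
    apply or_congr Iff.rfl
    apply exists_congr
    intro i
    rw [← Int.natCast_dvd_natCast]
    push_cast
    rfl
  rw [h1]

lemma tuplets_eq {k : ℕ} (a : Fin k → ℕ) (N : ℕ) : tuplets a N = Pool.Agent.Run7.h609.BT.TT a N := by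
  unfold tuplets Pool.Agent.Run7.h609.BT.TT
  apply filter_congr
  intro n _
  rw [Fin.forall_fin_succ]
  unfold member
  simp only [Fin.cons_zero, Fin.cons_succ, add_zero]

lemma boxes_of {r k : ℕ} (ε : ℝ) (N : ℕ) (α : Fin r → ℝ) (a : Fin k → ℕ) (h : Pool.Agent.Run7.h609.BT.Joint ε N a α) :
    Boxes ε N α a := by
  intro hadm
  obtain ⟨S, hS, hS1⟩ := h
  obtain ⟨hS0, hS2⟩ := hS1 (adm_iff a hadm)
  refine ⟨S, hS0, ?_, fun u v huv hvu => ?_⟩
  · rw [series_eq]
    exact hS
  · have h1 := hS2 u v huv hvu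
    rw [tuplets_eq]
    refine le_trans (le_of_eq ?_) h1
    have e1 : (Pool.Agent.Run7.h609.BT.TT a N).filter (fun n : ℕ => ∀ i j,
        Int.fract (α j * (n + member a i : ℕ) - u i j) < v i j - u i j) =
        (Pool.Agent.Run7.h609.BT.TT a N).filter (fun n : ℕ => ∀ i j,
        Int.fract (α j * ((n : ℝ) + Pool.Agent.Run7.h609.BT.sh a i) - u i j) < v i j - u i j) := by
      apply filter_congr
      intro n _
      apply forall_congr'
      intro i
      apply forall_congr'
      intro j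
      rw [Nat.cast_add]
      rfl
    rw [e1]
    rfl

lemma beatty_of {r k : ℕ} (ε : ℝ) (N : ℕ) (β : Fin r → ℝ) (hβ : ∀ j, 1 ≤ β j) (a : Fin k → ℕ)
    (h : Boxes ε N (fun j => -(1 / β j)) a) : Beatty ε N β a := by
  classical
  intro hadm
  obtain ⟨S, hS0, hS, hS1⟩ := h hadm
  refine ⟨S, hS0, hS, fun γ => ?_⟩
  have h1 := hS1 (fun i j => -(γ i j / β j)) (fun i j => -(γ i j / β j) + 1 / β j)
    (fun i j => by
      have : 0 ≤ 1 / β j := by
        have := hβ j
        positivity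
      linarith)
    (fun i j => by
      have h4 := hβ j
      have : 1 / β j ≤ 1 := by
        rw [div_le_one (by linarith)]
        exact h4
      linarith)
  have e1 : (tuplets a N).filter (fun n : ℕ => ∀ i j, ∃ m : ℤ, ((n + member a i : ℕ) : ℤ) = ⌊β j * m + γ i j⌋) =
      (tuplets a N).filter (fun n : ℕ => ∀ i j,
        Int.fract ((-(1 / β j)) * (n + member a i : ℕ) - (-(γ i j / β j))) < (-(γ i j / β j) + 1 / β j) - (-(γ i j / β j))) := by
    apply filter_congr
    intro n _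
    apply forall_congr'
    intro i
    apply forall_congr'
    intro j
    exact Pool.Agent.Run7.h609.MK.beatty_iff (β j) (γ i j) (hβ j) (n + member a i)
  have e2 : ∏ j, meas (fun i => (-(1 / β j)) * member a i - (-(γ i j / β j)))
      (fun i => (-(γ i j / β j) + 1 / β j) - (-(γ i j / β j))) =
      ∏ j, meas (fun i => (γ i j - member a i) / β j) (fun _ => 1 / β j) := by
    apply prod_congr rfl
    intro j _
    congr 1
    · funext i
      ring
    · funext i
      ring
  rw [e1, ← e2]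
  exact h1

open scoped Classical in
/-- **prime tuplets in Bohr sets and in Beatty sequences, for almost all patterns from short families** -/
theorem result :
    (∀ (k r B W U : ℕ) (κ : Fin k → ℕ) (η ε : ℝ), 1 ≤ k → (∀ i, 1 ≤ κ i) → 0 < η → η ≤ 1 → 0 < ε →
      ∃ M V C N₀ : ℕ, ∀ N : ℕ, N₀ ≤ N → ∀ (q : Fin k → ℕ) [∀ i, NeZero (q i)],
        (∀ i, (N : ℝ) ^ (1 / 3 : ℝ) * Real.log N ^ C ≤ q i) → (∀ i, q i ≤ B * N) →
        ∀ (ι : Fin k → Type) (S : ∀ i, Finset (ι i)) (y : ∀ i, ι i → ZMod (q i)),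
        (∀ i, Flat (q i) (1 / Real.log N ^ V) (S i) (y i)) → ∀ c : Fin k → ℕ, (∀ i, c i ≤ B * N) →
        (∀ α : Fin r → ℝ, Independent M η N α →
          (((Fintype.piFinset S).filter fun n => ¬ ∀ t : Fin k → ℕ, (∀ i, (t i : ℝ) ≤ Real.log N ^ W) →
            Boxes ε N α (fun i => c i + κ i * (y i (n i)).val + t i)).card : ℝ) ≤
            (∏ i, ((S i).card : ℝ)) / Real.log N ^ U) ∧
        (∀ β : Fin r → ℝ, (∀ j, 1 ≤ β j) → Independent M η N (fun j => 1 / β j) →
          (((Fintype.piFinset S).filter fun n => ¬ ∀ t : Fin k → ℕ, (∀ i, (t i : ℝ) ≤ Real.log N ^ W) →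
            Beatty ε N β (fun i => c i + κ i * (y i (n i)).val + t i)).card : ℝ) ≤
            (∏ i, ((S i).card : ℝ)) / Real.log N ^ U)) ∧
    (∀ (r M : ℕ) (c₀ τ η : ℝ), 0 < c₀ → 0 ≤ τ → 0 < η → η * (τ + 1) < 1 → ∃ N₀ : ℕ, ∀ N : ℕ, N₀ ≤ N → ∀ α : Fin r → ℝ,
      (∀ h : Fin r → ℤ, h ≠ 0 → ∀ m : ℤ, c₀ / (∑ j, |(h j : ℝ)|) ^ τ ≤ |∑ j, (h j : ℝ) * α j - m|) →
      Independent M η N α) := by
  constructor
  · intro k r B W U κ η ε hk hκ hη hη1 hε
    obtain ⟨ε', hε', hj⟩ := Pool.Agent.Run7.h609.BT.joint k r ε hε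
    obtain ⟨M, V, C, N₀, h⟩ := Pool.Agent.Run7.h609.BT.flat Pool.Agent.Run7.h794.MK.flt_all k hk r κ hκ B W U η ε' hη hη1 hε'
    have key : ∀ N : ℕ, N₀ + 2 ≤ N → ∀ (q : Fin k → ℕ) [∀ i, NeZero (q i)],
        (∀ i, (N : ℝ) ^ (1 / 3 : ℝ) * Real.log N ^ C ≤ q i) → (∀ i, q i ≤ B * N) →
        ∀ (ι : Fin k → Type) (S : ∀ i, Finset (ι i)) (y : ∀ i, ι i → ZMod (q i)),
        (∀ i, Flat (q i) (1 / Real.log N ^ V) (S i) (y i)) → ∀ c : Fin k → ℕ, (∀ i, c i ≤ B * N) →
        ∀ α : Fin r → ℝ, Independent M η N α → ∀ P : (Fin k → ℕ) → Prop, (∀ a, Boxes ε N α a → P a) →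
          (((Fintype.piFinset S).filter fun n => ¬ ∀ t : Fin k → ℕ, (∀ i, (t i : ℝ) ≤ Real.log N ^ W) →
            P (fun i => c i + κ i * (y i (n i)).val + t i)).card : ℝ) ≤
            (∏ i, ((S i).card : ℝ)) / Real.log N ^ U := by
      intro N hN q _ hq1 hq2 ι S y hf c hc α hα P hP
      refine le_trans ?_ (h N (by omega) q hq1 hq2 ι S y hf c hc α hα)
      have h1 : (Fintype.piFinset S).filter (fun n => ¬ ∀ t : Fin k → ℕ, (∀ i, (t i : ℝ) ≤ Real.log N ^ W) →
            P (fun i => c i + κ i * (y i (n i)).val + t i)) ⊆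
          (Fintype.piFinset S).filter (fun n => ¬ ∀ t : Fin k → ℕ, (∀ i, (t i : ℝ) ≤ Real.log N ^ W) →
            Pool.Agent.Run7.h609.BT.Box ε' N (fun i => c i + κ i * (y i (n i)).val + t i) α) := by
        intro n hn
        rw [mem_filter] at hn ⊢
        refine ⟨hn.1, fun hall => hn.2 fun t ht => hP _ ?_⟩
        exact boxes_of ε N α _ (hj N _ α (by omega) (hall t ht))
      exact_mod_cast card_le_card h1
    refine ⟨M, V, C, N₀ + 2, fun N hN q _ hq1 hq2 ι S y hf c hc => ⟨fun α hα => ?_, fun β hβ hα => ?_⟩⟩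
    · exact key N hN q hq1 hq2 ι S y hf c hc α hα (Boxes ε N α) (fun a ha => ha)
    · refine key N hN q hq1 hq2 ι S y hf c hc (fun j => -(1 / β j)) ?_ (Beatty ε N β) (fun a ha => beatty_of ε N β hβ a ha)
      intro g hg0 hgM d hd hdN m
      have h1 := hα (-g) (neg_ne_zero.2 hg0) (fun j => by rw [Pi.neg_apply, abs_neg]; exact hgM j) d hd hdN m
      have h2 : ∑ j, (((-g) j : ℤ) : ℝ) * (1 / β j) = ∑ j, (g j : ℝ) * -(1 / β j) := by
        refine sum_congr rfl fun j _ => ?_
        rw [Pi.neg_apply]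
        push_cast
        ring
      rw [h2] at h1
      exact h1
  · intro r M c₀ τ η hc₀ hτ hη hητ
    -- the size of `d h`
    obtain ⟨R, hR⟩ : ∃ R : ℝ, R = r * M + 1 := ⟨_, rfl⟩
    have hR0 : 0 < R := by rw [hR]; positivity
    have hexp : 0 < 1 - η * (τ + 1) := by linarith
    have hlim : Filter.Tendsto (fun N : ℕ => (N : ℝ) ^ (1 - η * (τ + 1))) Filter.atTop Filter.atTop :=
      (tendsto_rpow_atTop hexp).comp tendsto_natCast_atTop_atTop
    obtain ⟨N₁, h1⟩ := Filter.eventually_atTop.1 (hlim.eventually_ge_atTop (R ^ τ / c₀))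
    refine ⟨N₁ + 1, fun N hN α hα h h0 hM d hd hdN m => ?_⟩
    have g1 := h1 N (by omega)
    have hN0 : (0 : ℝ) < N := by exact_mod_cast (by omega : 0 < N)
    have hd0 : (0 : ℝ) < d := by exact_mod_cast hd
    have hdh0 : (fun j => (d : ℤ) * h j) ≠ 0 := by
      intro he
      apply h0
      funext j
      have := congrFun he j
      simp only [Pi.zero_apply, mul_eq_zero] at this
      rcases this with h2 | h2
      · exfalso
        have : d = 0 := by exact_mod_cast h2
        omega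
      · exact h2
    have g2 := hα (fun j => (d : ℤ) * h j) hdh0 m
    have g3 : ∑ j, (((d : ℤ) * h j : ℤ) : ℝ) * α j = (d : ℝ) * ∑ j, (h j : ℝ) * α j := by
      rw [mul_sum]
      apply sum_congr rfl
      intro j _
      push_cast
      ring
    rw [g3] at g2
    refine le_trans ?_ g2
    have g4 : ∑ j, |(((d : ℤ) * h j : ℤ) : ℝ)| ≤ d * R := by
      have g5 : ∀ j ∈ (univ : Finset (Fin r)), |(((d : ℤ) * h j : ℤ) : ℝ)| ≤ d * M := by
        intro j _
        push_cast
        rw [abs_mul, abs_of_pos hd0]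
        apply mul_le_mul_of_nonneg_left _ hd0.le
        have := hM j
        have h2 : ((|h j| : ℤ) : ℝ) ≤ ((M : ℤ) : ℝ) := by exact_mod_cast this
        push_cast at h2
        exact h2
      refine (sum_le_sum g5).trans ?_
      rw [sum_const, card_univ, Fintype.card_fin, nsmul_eq_mul, hR]
      have : (0 : ℝ) ≤ d := hd0.le
      linarith
    have g6 : 0 < ∑ j, |(((d : ℤ) * h j : ℤ) : ℝ)| := by
      obtain ⟨j, hj⟩ := Function.ne_iff.1 hdh0
      apply sum_pos' (fun _ _ => abs_nonneg _)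
      refine ⟨j, mem_univ _, abs_pos.2 ?_⟩
      exact_mod_cast hj
    have g7 : (∑ j, |(((d : ℤ) * h j : ℤ) : ℝ)|) ^ τ ≤ ((N : ℝ) ^ η * R) ^ τ := by
      apply Real.rpow_le_rpow g6.le _ hτ
      exact g4.trans (mul_le_mul_of_nonneg_right hdN hR0.le)
    have g8 : 0 < (∑ j, |(((d : ℤ) * h j : ℤ) : ℝ)|) ^ τ := Real.rpow_pos_of_pos g6 _
    rw [le_div_iff₀ g8]
    calc (N : ℝ) ^ (η - 1) * (∑ j, |(((d : ℤ) * h j : ℤ) : ℝ)|) ^ τ ≤ (N : ℝ) ^ (η - 1) * ((N : ℝ) ^ η * R) ^ τ :=
          mul_le_mul_of_nonneg_left g7 (by positivity)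
      _ = (N : ℝ) ^ (-(1 - η * (τ + 1))) * R ^ τ := by
          rw [Real.mul_rpow (by positivity) hR0.le, ← Real.rpow_mul hN0.le, ← mul_assoc, ← Real.rpow_add hN0]
          congr 2
          ring
      _ ≤ c₀ := by
          rw [Real.rpow_neg hN0.le, ← div_eq_inv_mul, div_le_iff₀ (by positivity)]
          rw [div_le_iff₀ hc₀] at g1
          linarith

end Pool.Agent.Results.MP_dddec0_nt.TupletsInBohrSets
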