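import Pool.Agent.Run7.h620.PD.Two

set_option autoImplicit false

/-!
# Triplets at palindromes with two digits

`n` runs over the palindromes with `K` base `b` digits, all of them `e` or `f` (about `2 ^ (K / 2)` numbers of
size `b ^ K`), and `h` is `2` or `4`. The triples `n`, `n + h`, `n + 6` are counted: from below those with a bounded
number of prime factors, from above the prime ones, in both cases with the expected order `2 ^ (K / 2) / K ^ 3`.

Proof: level of distribution of the palindromes with two digits (balanced digits of all fractions with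
denominators up to `exp (c K)` are counted at once), a residue class modulo a fixed number in which none of the three
numbers is divisible by a high power of a small prime, the fundamental lemma, Mertens.
-/

namespace Pool.Agent.Results.MP_dddec0_nt.TwoDigitPalindromes

open Finset Filter

/-- `n` has exactly `K` base `b` digits, all of them `e` or `f`, and they read the same backwards. -/
def Pal (b e f K n : ℕ) : Prop :=
  (Nat.digits b n).length = K ∧ (Nat.digits b n).reverse = Nat.digits b n ∧ ∀ d ∈ Nat.digits b n, d = e ∨ d = f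

open Polynomial in
open Classical in
/-- **Almost prime triplets and prime triplets at palindromes with two digits.** -/
theorem result : ∀ b : ℕ, 2 ≤ b → ∀ e f : ℕ, e < b → f < b → e ≠ 0 → f ≠ e → ∀ h : ℕ, h = 2 ∨ h = 4 →
    ∃ c C : ℝ, 0 < c ∧ 0 < C ∧ ∃ r : ℕ, ∀ᶠ K : ℕ in atTop,
      c * (2 : ℝ) ^ ((K : ℝ) / 2) / (K : ℝ) ^ 3 ≤
        (((Finset.range (b ^ K)).filter (fun n : ℕ => Pal b e f K n ∧ n.primeFactorsList.length ≤ r ∧
          (n + h).primeFactorsList.length ≤ r ∧ (n + 6).primeFactorsList.length ≤ r)).card : ℝ) ∧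
      (((Finset.range (b ^ K)).filter (fun n : ℕ => Pal b e f K n ∧ n.Prime ∧ (n + h).Prime ∧ (n + 6).Prime)).card : ℝ) ≤
        C * (2 : ℝ) ^ ((K : ℝ) / 2) / (K : ℝ) ^ 3 := by
  intro b hb e f he hf he0 hef h hh
  set a : ℕ → ℤ := fun _ => 1 with ha
  set s : ℕ → ℤ := fun i => if i = 0 then 0 else if i = 1 then (h : ℤ) else 6 with hs
  obtain ⟨⟨c, hc, r, h1⟩, ⟨C', hC, h2⟩⟩ := Pool.Agent.Run7.h620.PD.two_sided b hb e f he hf he0 hef 3
    (fun i => C (a i) * X + C (s i)) (fun i _ => by simp only [ha]; rw [natDegree_linear (by norm_num)]) (by norm_num) 3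
    (by
      rw [natDegree_prod _ _ (fun i _ => by
        intro h0
        have h3 := congrArg natDegree h0
        simp only [ha] at h3
        rw [natDegree_linear (by norm_num), natDegree_zero] at h3
        omega)]
      have h3 : ∀ i ∈ range 3, (C (a i) * X + C (s i)).natDegree = 1 := fun i _ => by
        simp only [ha]
        rw [natDegree_linear (by norm_num)]
      rw [sum_congr rfl h3]
      simp)
    (Pool.Agent.Run7.h620.PD.MertF_lin 3 a s (fun i _ => by simp [ha]) (by
      intro i hi j hj hij
      simp only [ha, hs, one_mul]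
      split_ifs <;> omega))
  refine ⟨c, C', hc, hC, r, ?_⟩
  filter_upwards [h1, h2] with K hK1 hK2
  have hev : ∀ (n i : ℕ), (C (a i) * X + C (s i)).eval (n : ℤ) = n + s i := by
    intro n i
    rw [eval_add, eval_mul, eval_C, eval_X, eval_C]
    simp [ha]
  constructor
  · refine hK1.trans ?_
    have hle : ((Finset.range (b ^ K)).filter (fun n : ℕ => Pool.Agent.Run7.h620.PD.IsPal b e f K n ∧
        ∀ i < 3, (C (a i) * X + C (s i)).eval (n : ℤ) ≠ 0 ∧
          ArithmeticFunction.cardFactors ((C (a i) * X + C (s i)).eval (n : ℤ)).natAbs ≤ r)).card ≤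
        ((Finset.range (b ^ K)).filter (fun n : ℕ => Pal b e f K n ∧ n.primeFactorsList.length ≤ r ∧
          (n + h).primeFactorsList.length ≤ r ∧ (n + 6).primeFactorsList.length ≤ r)).card := by
      apply card_le_card
      intro n hn
      rw [mem_filter] at hn ⊢
      obtain ⟨g1, g2, g3⟩ := hn
      have k0 := (g3 0 (by norm_num)).2
      have k1 := (g3 1 (by norm_num)).2
      have k2 := (g3 2 (by norm_num)).2
      rw [hev, ArithmeticFunction.cardFactors_apply] at k0 k1 k2
      have e0 : ((n : ℤ) + s 0).natAbs = n := by simp [hs]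
      have e1 : ((n : ℤ) + s 1).natAbs = n + h := by simp [hs]; omega
      have e2 : ((n : ℤ) + s 2).natAbs = n + 6 := by simp [hs]; omega
      rw [e0] at k0
      rw [e1] at k1
      rw [e2] at k2
      exact ⟨g1, g2, k0, k1, k2⟩
    exact_mod_cast hle
  · refine le_trans ?_ hK2
    have hle : ((Finset.range (b ^ K)).filter (fun n : ℕ => Pal b e f K n ∧ n.Prime ∧ (n + h).Prime ∧ (n + 6).Prime)).card ≤
        ((Finset.range (b ^ K)).filter (fun n : ℕ => Pool.Agent.Run7.h620.PD.IsPal b e f K n ∧
        ∀ i < 3, ((C (a i) * X + C (s i)).eval (n : ℤ)).natAbs.Prime)).card := by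
      apply card_le_card
      intro n hn
      rw [mem_filter] at hn ⊢
      obtain ⟨g1, g2, g3, g4, g5⟩ := hn
      refine ⟨g1, g2, fun i hi => ?_⟩
      rw [hev]
      have e0 : ((n : ℤ) + s 0).natAbs = n := by simp [hs]
      have e1 : ((n : ℤ) + s 1).natAbs = n + h := by simp [hs]; omega
      have e2 : ((n : ℤ) + s 2).natAbs = n + 6 := by simp [hs]; omega
      interval_cases i
      · rw [e0]; exact g3
      · rw [e1]; exact g4
      · rw [e2]; exact g5
    exact_mod_cast hle

end Pool.Agent.Results.MP_dddec0_nt.TwoDigitPalindromes
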